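import Mathlib
import Pool.Agent.H10.CovC

set_option autoImplicit false

namespace Pool.Agent.Results.MP_87c4bd_co.Collapse
open Pool.Agent.H10.Cov MeasureTheory Filter

theorem result (Ω : Type*) [MeasurableSpace Ω] (π : Measure Ω) [IsProbabilityMeasure π]
    (I : Set (Set Ω)) (hI : ∀ J ∈ I, MeasurableSet J) (lam : ℝ) (_h0 : 0 < lam) (h1 : lam < 1) :
    ¬ Hup I π lam < Hfull I π ∧ Hfull I π ≤ Hcnt I π ∧ Hcnt I π ≤ Hlow I π lam :=
  ⟨((full_le hI).trans ((cnt_le hI h1).trans liminf_le_limsup)).not_gt, full_le hI, cnt_le hI h1⟩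

end Pool.Agent.Results.MP_87c4bd_co.Collapse
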